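import Pool.Agent.H13.CA.Grp

/-!
# CH-ALL, chapter GROWTH, G2b (helper25): homomorphisms with zero linear coefficient

Over a domain of characteristic `p` a homomorphism `f : F → G` of formal group laws with
`f'(0) = 0` is a series in `x ^ p`.  Proof: `f (F (x, y)) = G (f x, f y)` modulo `y ^ 2`:
`f (x) + y W (x, 0) f' (x) = f (x)`, so `f' = 0`.
-/

open PowerSeries

namespace Pool.Agent.H25.CG

open Pool.Agent.H13.CA

variable {R : Type*} [CommRing R]

theorem hX (i : Fin 2) : PowerSeries.HasSubst (MvPowerSeries.X i : MvPowerSeries (Fin 2) R) :=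
  PowerSeries.HasSubst.X i

theorem coeff_X_zero (G : MvPowerSeries (Fin 2) R) (i : ℕ) :
    PowerSeries.coeff i (MvPowerSeries.subst ![(X : R⟦X⟧), 0] G : R⟦X⟧) =
      MvPowerSeries.coeff (Finsupp.single 0 i) G := by
  rw [PowerSeries.coeff, MvPowerSeries.coeff_subst, finsum_eq_single _ (Finsupp.single 0 i)]
  · simp
  · intro d hd
    by_cases hd₁ : d 1 = 0
    · have hd₀ : d 0 ≠ i := by
        rintro rfl
        apply hd
        ext s
        fin_cases s
        · simp
        · simp [hd₁]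
      simp [hd₁]
      intro h
      exact absurd h.symm hd₀
    simp [hd₁]
  · exact MvPowerSeries.HasSubst.X_zero

/-- a formal group law is `X₀ + X₁ W`, `W (0) = 1` -/
theorem exists_W (F : FormalGroup R) : ∃ W : MvPowerSeries (Fin 2) R,
    MvPowerSeries.constantCoeff W = 1 ∧
      F.toPowerSeries = MvPowerSeries.X 0 + MvPowerSeries.X 1 * W := by
  have h1 : (MvPowerSeries.X 1 : MvPowerSeries (Fin 2) R) ∣
      F.toPowerSeries - MvPowerSeries.X 0 := by
    rw [MvPowerSeries.X_dvd_iff]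
    intro m hm
    have e : m = Finsupp.single 0 (m 0) := by
      ext s
      fin_cases s
      · simp
      · simp [hm]
    have e1 := coeff_X_zero F.toPowerSeries (m 0)
    have e2 := congrArg (PowerSeries.coeff (m 0)) F.Xzero_eq_X
    rw [e1] at e2
    rw [map_sub, e, e2, MvPowerSeries.coeff_X, PowerSeries.coeff_X]
    by_cases h : m 0 = 1
    · rw [if_pos h, if_pos (by rw [h]), sub_self]
    · rw [if_neg h, if_neg, sub_self]
      intro h2
      apply h
      have := DFunLike.congr_fun h2 0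
      simpa using this
  obtain ⟨W, hW⟩ := h1
  have h2 : F.toPowerSeries = MvPowerSeries.X 0 + MvPowerSeries.X 1 * W := by rw [← hW]; ring
  refine ⟨W, ?_, h2⟩
  have h3 := F.lin_coeff_Y
  rw [h2, map_add, MvPowerSeries.coeff_X, if_neg (by
    intro h
    have := DFunLike.congr_fun h 0
    simp at this), zero_add] at h3
  have h4 := MvPowerSeries.coeff_add_monomial_mul (Finsupp.single (1 : Fin 2) 1) 0 W (1 : R)
  rw [add_zero, one_mul] at h4
  rw [← MvPowerSeries.coeff_zero_eq_constantCoeff_apply, ← h4]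
  exact h3

/-- the square Taylor formula -/
theorem taylor (f : R⟦X⟧) {σ : Type*} {a b : MvPowerSeries σ R} (ha : PowerSeries.HasSubst a)
    (hb : PowerSeries.HasSubst b) : ∃ K : MvPowerSeries σ R,
      PowerSeries.subst (a + b) f =
        PowerSeries.subst a f + b * PowerSeries.subst a (derivative R f) + b ^ 2 * K := by
  have hX01 : PowerSeries.HasSubst
      (MvPowerSeries.X 0 + MvPowerSeries.X 1 : MvPowerSeries (Fin 2) R) := (hX 0).add (hX 1)
  have h1 : (MvPowerSeries.X 1 : MvPowerSeries (Fin 2) R) ^ 2 ∣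
      PowerSeries.subst (MvPowerSeries.X 0 + MvPowerSeries.X 1 : MvPowerSeries (Fin 2) R) f -
        (PowerSeries.subst (MvPowerSeries.X 0 : MvPowerSeries (Fin 2) R) f +
        MvPowerSeries.X 1 * PowerSeries.subst (MvPowerSeries.X 0 : MvPowerSeries (Fin 2) R)
          (derivative R f)) := by
    rw [MvPowerSeries.X_pow_dvd_iff]
    intro m hm
    have h2 : (MvPowerSeries.X 1 : MvPowerSeries (Fin 2) R) =
      MvPowerSeries.monomial (Finsupp.single 1 1) 1 := rfl
    rw [map_sub, map_add, PowerSeries.coeff_subst_X_zero_add_X_one, PowerSeries.coeff_subst_single]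
    conv_lhs => rw [h2]
    rw [MvPowerSeries.coeff_monomial_mul, PowerSeries.coeff_subst_single, one_mul]
    have hcase : m 1 = 0 ∨ m 1 = 1 := by omega
    rcases hcase with h | h
    · have e : m = Finsupp.single 0 (m 0) := by
        ext s
        fin_cases s
        · simp
        · simp [h]
      rw [if_pos e, if_neg (by
        intro h3
        have := h3 1
        simp [h] at this), h]
      simp
    · have e : ¬ m = Finsupp.single 0 (m 0) := by
        intro h3
        have := DFunLike.congr_fun h3 1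
        simp [h] at this
      have e1 : Finsupp.single 1 1 ≤ m := by
        intro s
        fin_cases s
        · simp
        · simp [h]
      have e2 : (m - Finsupp.single (1 : Fin 2) 1 : Fin 2 →₀ ℕ) 0 = m 0 := by simp
      have e3 : (m - Finsupp.single (1 : Fin 2) 1 : Fin 2 →₀ ℕ) =
          Finsupp.single 0 ((m - Finsupp.single (1 : Fin 2) 1 : Fin 2 →₀ ℕ) 0) := by
        ext s
        fin_cases s
        · simp
        · simp [h]
      rw [if_neg e, if_pos e1, if_pos e3, e2, h, PowerSeries.coeff_derivative, zero_add,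
        Nat.choose_symm_add, Nat.choose_one_right]
      push_cast
      ring
  obtain ⟨K, hK⟩ := h1
  have hab := hasSubst_pair ha hb
  have h2 := congrArg (MvPowerSeries.subst ![a, b]) hK
  refine ⟨MvPowerSeries.subst ![a, b] K, ?_⟩
  rw [← MvPowerSeries.coe_substAlgHom hab, map_sub, map_add, map_mul, map_mul, map_pow,
    MvPowerSeries.coe_substAlgHom hab, mv_subst_subst hX01 hab, mv_subst_subst (hX 0) hab,
    mv_subst_subst (hX 0) hab, MvPowerSeries.subst_X hab, MvPowerSeries.subst_X hab] at h2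
  rw [← MvPowerSeries.coe_substAlgHom hab, map_add, MvPowerSeries.coe_substAlgHom hab,
    MvPowerSeries.subst_X hab, MvPowerSeries.subst_X hab] at h2
  have h3 : PowerSeries.subst (a + b) f -
      (PowerSeries.subst a f + b * PowerSeries.subst a (derivative R f)) =
        b ^ 2 * MvPowerSeries.subst ![a, b] K := h2
  linear_combination h3

theorem hX0 : MvPowerSeries.HasSubst ![(X : R⟦X⟧), 0] := MvPowerSeries.HasSubst.X_zero

theorem subst_X1_mul (W : MvPowerSeries (Fin 2) R) :
    (MvPowerSeries.subst ![(X : R⟦X⟧), 0] (MvPowerSeries.X 1 * W) : R⟦X⟧) = 0 := by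
  rw [← MvPowerSeries.coe_substAlgHom hX0, map_mul, MvPowerSeries.coe_substAlgHom hX0,
    MvPowerSeries.subst_X hX0]
  exact zero_mul _

theorem subst_X_self (f : R⟦X⟧) : PowerSeries.subst (X : R⟦X⟧) f = f := by
  rw [PowerSeries.subst_def]
  exact congrFun MvPowerSeries.subst_self f

/-- a homomorphism with zero linear coefficient has zero derivative -/
theorem derivative_eq_zero [IsDomain R] {F G : FormalGroup R} {f : R⟦X⟧}
    (hf : IsHom F G f) (h0 : coeff 1 f = 0) : derivative R f = 0 := by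
  obtain ⟨W, hW0, hW⟩ := exists_W F
  obtain ⟨V, hV0, hV⟩ := exists_W G
  have hf0 : constantCoeff f = 0 := hf.1
  obtain ⟨f2, hf2⟩ : (X : R⟦X⟧) ^ 2 ∣ f := by
    rw [PowerSeries.X_pow_dvd_iff]
    intro m hm
    interval_cases m
    · rw [PowerSeries.coeff_zero_eq_constantCoeff_apply, hf0]
    · exact h0
  have hX1W : PowerSeries.HasSubst (MvPowerSeries.X 1 * W : MvPowerSeries (Fin 2) R) := by
    apply PowerSeries.HasSubst.of_constantCoeff_zero
    rw [map_mul, MvPowerSeries.constantCoeff_X, zero_mul]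
  obtain ⟨K, hK⟩ := taylor f (hX (R := R) 0) hX1W
  have h1 := hf.2
  rw [hW, hK] at h1
  have hs0 := hs_subst (hX (R := R) 0) hf0
  have hs1 := hs_subst (hX (R := R) 1) hf0
  have hs := hasSubst_pair hs0 hs1
  have h2 : MvPowerSeries.subst ![PowerSeries.subst (MvPowerSeries.X 0 : MvPowerSeries (Fin 2) R) f,
      PowerSeries.subst (MvPowerSeries.X 1 : MvPowerSeries (Fin 2) R) f] G.toPowerSeries =
      PowerSeries.subst (MvPowerSeries.X 0 : MvPowerSeries (Fin 2) R) f +
      PowerSeries.subst (MvPowerSeries.X 1 : MvPowerSeries (Fin 2) R) f *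
        MvPowerSeries.subst ![PowerSeries.subst (MvPowerSeries.X 0 : MvPowerSeries (Fin 2) R) f,
      PowerSeries.subst (MvPowerSeries.X 1 : MvPowerSeries (Fin 2) R) f] V := by
    rw [hV, ← MvPowerSeries.coe_substAlgHom hs, map_add, map_mul, MvPowerSeries.coe_substAlgHom hs,
      MvPowerSeries.subst_X hs, MvPowerSeries.subst_X hs]
    rfl
  have h3 : PowerSeries.subst (MvPowerSeries.X 1 : MvPowerSeries (Fin 2) R) f =
      MvPowerSeries.X 1 ^ 2 * PowerSeries.subst (MvPowerSeries.X 1 : MvPowerSeries (Fin 2) R) f2 := by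
    conv_lhs => rw [hf2]
    rw [← PowerSeries.coe_substAlgHom (hX 1), map_mul, map_pow, PowerSeries.coe_substAlgHom (hX 1),
      PowerSeries.subst_X (hX 1)]
  rw [h2] at h1
  rw [h3] at h1
  set T := MvPowerSeries.subst ![PowerSeries.subst (MvPowerSeries.X 0 : MvPowerSeries (Fin 2) R) f,
      MvPowerSeries.X 1 ^ 2 * PowerSeries.subst (MvPowerSeries.X 1 : MvPowerSeries (Fin 2) R) f2] V
    with hT
  have h4 : (MvPowerSeries.X 1 : MvPowerSeries (Fin 2) R) *
      (W * PowerSeries.subst (MvPowerSeries.X 0 : MvPowerSeries (Fin 2) R) (derivative R f)) =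
      MvPowerSeries.X 1 * (MvPowerSeries.X 1 *
        (PowerSeries.subst (MvPowerSeries.X 1 : MvPowerSeries (Fin 2) R) f2 * T - W ^ 2 * K)) := by
    linear_combination h1
  have hX1 : (MvPowerSeries.X 1 : MvPowerSeries (Fin 2) R) ≠ 0 := by
    intro h
    have h' := congrArg (MvPowerSeries.coeff (Finsupp.single 1 1)) h
    rw [MvPowerSeries.coeff_X, if_pos rfl, map_zero] at h'
    exact one_ne_zero h'
  have h5 := mul_left_cancel₀ hX1 h4
  have h6 := congrArg (MvPowerSeries.subst ![(X : R⟦X⟧), 0]) h5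
  rw [subst_X1_mul, ← MvPowerSeries.coe_substAlgHom hX0, map_mul,
    MvPowerSeries.coe_substAlgHom hX0, mv_subst_subst (hX 0) hX0, MvPowerSeries.subst_X hX0] at h6
  rcases mul_eq_zero.1 h6 with h7 | h7
  · exfalso
    have h8 := congrArg (PowerSeries.coeff 0) h7
    rw [coeff_X_zero, Finsupp.single_zero, MvPowerSeries.coeff_zero_eq_constantCoeff_apply, hW0,
      map_zero] at h8
    exact one_ne_zero h8
  · rw [← subst_X_self (derivative R f)]
    exact h7

/-- in characteristic `p` the coefficients of exponents prime to `p` vanish -/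
theorem coeff_eq_zero_of_derivative {p : ℕ} [IsDomain R] [CharP R p] {f : R⟦X⟧}
    (h : derivative R f = 0) {i : ℕ} (hi : ¬ p ∣ i) : coeff i f = 0 := by
  rcases Nat.eq_zero_or_pos i with h0 | h0
  · exact absurd (h0 ▸ dvd_zero p) hi
  obtain ⟨j, rfl⟩ : ∃ j, i = j + 1 := ⟨i - 1, by omega⟩
  have h1 := congrArg (coeff j) h
  rw [PowerSeries.coeff_derivative, map_zero] at h1
  rcases mul_eq_zero.1 h1 with h2 | h2
  · exact h2
  · exfalso
    have h3 : ((j + 1 : ℕ) : R) = 0 := by push_cast; exact h2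
    exact hi ((CharP.cast_eq_zero_iff R p (j + 1)).1 h3)

theorem expand_mv {σ : Type*} {p : ℕ} (hp : p ≠ 0) {a : MvPowerSeries σ R}
    (ha : PowerSeries.HasSubst a) (f : R⟦X⟧) :
    MvPowerSeries.expand p hp (PowerSeries.subst a f) =
      PowerSeries.subst (MvPowerSeries.expand p hp a) f :=
  PowerSeries.expand_subst p hp ha f

theorem expand_inj {σ : Type*} {p : ℕ} (hp : p ≠ 0) {a b : MvPowerSeries σ R}
    (h : MvPowerSeries.expand p hp a = MvPowerSeries.expand p hp b) : a = b := by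
  ext m
  have h1 := congrArg (MvPowerSeries.coeff (p • m)) h
  rwa [MvPowerSeries.coeff_expand_smul, MvPowerSeries.coeff_expand_smul] at h1

theorem expand_frob (p : ℕ) [Fact p.Prime] [CharP R p] (hp : p ≠ 0) (F : MvPowerSeries (Fin 2) R) :
    MvPowerSeries.expand p hp (MvPowerSeries.map (frobenius R p) F) = F ^ p := by
  rw [← MvPowerSeries.map_expand, MvPowerSeries.map_frobenius_expand p hp]

theorem hs_X_pow {p : ℕ} (hp : p ≠ 0) : constantCoeff (X ^ p : R⟦X⟧) = 0 := by
  rw [map_pow, PowerSeries.constantCoeff_X, zero_pow hp]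

/-- a homomorphism with zero linear coefficient is a series in `x ^ p` -/
theorem hom_expand [IsDomain R] (p : ℕ) [Fact p.Prime] [CharP R p] {F G : FormalGroup R}
    {f : R⟦X⟧} (hf : IsHom F G f) (h0 : coeff 1 f = 0) :
    ∃ f₁ : R⟦X⟧, IsHom (F.map (frobenius R p)) G f₁ ∧
      f = PowerSeries.subst (X ^ p : R⟦X⟧) f₁ := by
  have hp : p ≠ 0 := (Fact.out : p.Prime).ne_zero
  have hd := derivative_eq_zero hf h0
  have hf0 : constantCoeff f = 0 := hf.1
  set f₁ : R⟦X⟧ := PowerSeries.mk fun i => coeff (p * i) f with hf₁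
  have e1 : f = PowerSeries.subst (X ^ p : R⟦X⟧) f₁ := by
    ext i
    rw [PowerSeries.coeff_subst_X_pow hp]
    by_cases h : p ∣ i
    · rw [if_pos h, hf₁, PowerSeries.coeff_mk, Nat.mul_div_cancel' h]
      rfl
    · rw [if_neg h, coeff_eq_zero_of_derivative hd h]
  have hc : constantCoeff f₁ = 0 := by
    rw [← PowerSeries.coeff_zero_eq_constantCoeff_apply, hf₁, PowerSeries.coeff_mk, mul_zero,
      PowerSeries.coeff_zero_eq_constantCoeff_apply, hf0]
  refine ⟨f₁, ⟨hc, ?_⟩, e1⟩
  have hs0 := hs_subst (hX (R := R) 0) hc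
  have hs1 := hs_subst (hX (R := R) 1) hc
  have hFm : PowerSeries.HasSubst (F.map (frobenius R p)).toPowerSeries := hs_F _
  have hXp : PowerSeries.HasSubst (X ^ p : R⟦X⟧) := hs_zero (hs_X_pow hp)
  have key : ∀ {a : MvPowerSeries (Fin 2) R}, PowerSeries.HasSubst a →
      PowerSeries.subst a f = PowerSeries.subst (a ^ p) f₁ := by
    intro a ha
    conv_lhs => rw [e1]
    rw [PowerSeries.subst_comp_subst_apply hXp ha, ← PowerSeries.coe_substAlgHom ha, map_pow,
      PowerSeries.coe_substAlgHom ha, PowerSeries.subst_X ha]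
  apply expand_inj hp
  rw [expand_mv hp hFm, MvPowerSeries.expand_subst p hp (hasSubst_pair hs0 hs1)]
  have e2 : MvPowerSeries.expand p hp (F.map (frobenius R p)).toPowerSeries =
      F.toPowerSeries ^ p := expand_frob p hp F.toPowerSeries
  rw [e2, ← key (hs_F F), hf.2]
  congr 1
  funext s
  fin_cases s
  · show PowerSeries.subst (MvPowerSeries.X 0 : MvPowerSeries (Fin 2) R) f =
      MvPowerSeries.expand p hp (PowerSeries.subst (MvPowerSeries.X 0 : MvPowerSeries (Fin 2) R) f₁)
    rw [expand_mv hp (hX 0), MvPowerSeries.expand_X, key (hX 0)]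
  · show PowerSeries.subst (MvPowerSeries.X 1 : MvPowerSeries (Fin 2) R) f =
      MvPowerSeries.expand p hp (PowerSeries.subst (MvPowerSeries.X 1 : MvPowerSeries (Fin 2) R) f₁)
    rw [expand_mv hp (hX 1), MvPowerSeries.expand_X, key (hX 1)]

theorem subst_X_pow_X_pow {a b : ℕ} (ha : a ≠ 0) (hb : b ≠ 0) (f : R⟦X⟧) :
    PowerSeries.subst (X ^ a : R⟦X⟧) (PowerSeries.subst (X ^ b : R⟦X⟧) f) =
      PowerSeries.subst (X ^ (a * b) : R⟦X⟧) f := by
  rw [subst_subst' (hs_X_pow hb) (hs_X_pow ha)]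
  congr 1
  have h := hs_zero (hs_X_pow (R := R) ha)
  rw [← PowerSeries.coe_substAlgHom h, map_pow, PowerSeries.coe_substAlgHom h,
    PowerSeries.subst_X h, pow_mul]

/-- a homomorphism divisible by `x ^ (p ^ a)` is a series in `x ^ (p ^ a)` -/
theorem hom_expand_pow [IsDomain R] (p : ℕ) [Fact p.Prime] [CharP R p] {F G : FormalGroup R}
    {f : R⟦X⟧} (hf : IsHom F G f) (a : ℕ) (h0 : ∀ i, i < p ^ a → coeff i f = 0) :
    ∃ f₁ : R⟦X⟧, constantCoeff f₁ = 0 ∧ IsHom (F.map ((frobenius R p) ^ a)) G f₁ ∧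
      f = PowerSeries.subst (X ^ p ^ a : R⟦X⟧) f₁ := by
  have hp : p.Prime := Fact.out
  induction a with
  | zero =>
    refine ⟨f, hf.1, ?_, ?_⟩
    · rw [pow_zero, fmap_id F _ fun x => rfl]
      exact hf
    · rw [pow_zero, pow_one, subst_X_self]
  | succ a ih =>
    obtain ⟨f₁, h1, h2, h3⟩ := ih fun i hi => h0 i (hi.trans_le (Nat.pow_le_pow_right hp.pos (Nat.le_succ a)))
    have hpa : p ^ a ≠ 0 := pow_ne_zero _ hp.ne_zero
    have h4 : coeff 1 f₁ = 0 := by
      have h5 := h0 (p ^ a) (Nat.pow_lt_pow_right hp.one_lt (Nat.lt_succ_self a))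
      rw [h3, PowerSeries.coeff_subst_X_pow hpa, if_pos dvd_rfl,
        Nat.div_self (pow_pos hp.pos a)] at h5
      exact h5
    obtain ⟨f₂, h5, h6⟩ := hom_expand p h2 h4
    refine ⟨f₂, h5.1, ?_, ?_⟩
    · rw [fmap_map] at h5
      rw [pow_succ']
      exact h5
    · rw [h3, h6, subst_X_pow_X_pow hpa hp.ne_zero, pow_succ]

/-- the order of a nonzero homomorphism is a power of `p` -/
theorem hom_order [IsDomain R] (p : ℕ) [Fact p.Prime] [CharP R p] {F G : FormalGroup R} {f : R⟦X⟧}
    (hf : IsHom F G f) (h0 : f ≠ 0) :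
    ∃ (a : ℕ) (f₁ : R⟦X⟧), f.order = (p ^ a : ℕ) ∧ constantCoeff f₁ = 0 ∧ coeff 1 f₁ ≠ 0 ∧
      f = PowerSeries.subst (X ^ p ^ a : R⟦X⟧) f₁ := by
  have hp : p.Prime := Fact.out
  have hfin : ∃ N, coeff N f ≠ 0 := by
    by_contra h
    push Not at h
    exact h0 (PowerSeries.ext h)
  have hbd : ∃ a, ¬ ∀ i, i < p ^ a → coeff i f = 0 := by
    obtain ⟨N, hN⟩ := hfin
    exact ⟨N, fun h => hN (h N (Nat.lt_pow_self hp.one_lt))⟩
  classical
  obtain ⟨b, hb, hmin⟩ : ∃ b, (¬ ∀ i, i < p ^ b → coeff i f = 0) ∧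
      ∀ a < b, ∀ i, i < p ^ a → coeff i f = 0 := by
    refine ⟨Nat.find hbd, Nat.find_spec hbd, fun a ha => ?_⟩
    exact not_not.1 (Nat.find_min hbd ha)
  have hb0 : b ≠ 0 := by
    rintro rfl
    apply hb
    intro i hi
    have : i = 0 := by simpa using hi
    rw [this, PowerSeries.coeff_zero_eq_constantCoeff_apply]
    exact hf.1
  obtain ⟨a, rfl⟩ := Nat.exists_eq_succ_of_ne_zero hb0
  have h1 := hmin a (Nat.lt_succ_self a)
  obtain ⟨f₁, hf₁, hh, e⟩ := hom_expand_pow p hf a h1
  have hpa : p ^ a ≠ 0 := pow_ne_zero _ hp.ne_zero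
  have hc : coeff (p ^ a) f = coeff 1 f₁ := by
    rw [e, PowerSeries.coeff_subst_X_pow hpa, if_pos dvd_rfl, Nat.div_self (pow_pos hp.pos a)]
    rfl
  have hc1 : coeff 1 f₁ ≠ 0 := by
    intro h
    apply hb
    obtain ⟨f₂, -, e2⟩ := hom_expand p hh h
    intro i hi
    rw [e, e2, subst_X_pow_X_pow hpa hp.ne_zero, ← pow_succ,
      PowerSeries.coeff_subst_X_pow (pow_ne_zero _ hp.ne_zero)]
    by_cases hd : p ^ (a + 1) ∣ i
    · rcases Nat.eq_zero_or_pos i with h | h
      · rw [if_pos hd, h, Nat.zero_div]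
        have h5 : coeff 0 f₂ = 0 := by
          have h6 := hf₁
          rw [e2, ← PowerSeries.coeff_zero_eq_constantCoeff_apply,
            PowerSeries.coeff_subst_X_pow hp.ne_zero, if_pos (dvd_zero p), Nat.zero_div] at h6
          exact h6
        rw [h5, map_zero]
      · exact absurd (Nat.le_of_dvd h hd) (not_le.2 hi)
    · rw [if_neg hd]
  refine ⟨a, f₁, ?_, hf₁, hc1, e⟩
  rw [PowerSeries.order_eq_nat]
  exact ⟨by rw [hc]; exact hc1, fun i hi => h1 i hi⟩

end Pool.Agent.H25.CG
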