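import Pool.Agent.H22.CG.Ring
import Pool.Agent.H85.CH.Fa
import Pool.Agent.H25.CG.Exp

/-!
# CH-ALL, chapter GROWTH, G2c, G2d (helper25): divisibility by `p`, linear coefficients

`[p] = V (x ^ (p ^ n))` with `V` an isomorphism `Γ ^ (p ^ n) → Γ`; so an endomorphism divisible
by `x ^ (p ^ n)` is `[p]` composed with an endomorphism.
-/

set_option linter.unusedSectionVars false

open PowerSeries

namespace Pool.Agent.H25.CG

open Pool.Agent.H13.CA Pool.Agent.H22.CG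

section Lin

variable {R : Type*} [CommRing R] (F : FormalGroup R) [F.IsComm]

theorem coeff_one_pl {f g : R⟦X⟧} (hf : constantCoeff f = 0) (hg : constantCoeff g = 0) :
    coeff 1 (pl F (σ := Unit) f g : R⟦X⟧) = coeff 1 f + coeff 1 g :=
  H85.CH.coeff_pl F le_rfl (by rw [pow_one]; exact PowerSeries.X_dvd_iff.2 hf)
    (by rw [pow_one]; exact PowerSeries.X_dvd_iff.2 hg) (by norm_num)

theorem coeff_one_one : coeff 1 (1 : EndF F).s = 1 := by
  rw [EndF.one_s, PowerSeries.coeff_one_X]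

theorem coeff_one_mul (f g : EndF F) : coeff 1 (f * g).s = coeff 1 f.s * coeff 1 g.s := by
  rw [EndF.mul_s, coeff_one_subst g.cc f.cc, mul_comm]

theorem coeff_one_zero : coeff 1 (0 : EndF F).s = 0 := by
  rw [EndF.zero_s, map_zero]

theorem coeff_one_add (f g : EndF F) : coeff 1 (f + g).s = coeff 1 f.s + coeff 1 g.s := by
  rw [EndF.add_s]
  exact coeff_one_pl F f.cc g.cc

theorem isUnit_of_coeff_one {f : EndF F} (h : IsUnit (coeff 1 f.s)) : IsUnit f := by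
  obtain ⟨f', h1, h2, h3⟩ := f.hom.inv h
  refine ⟨⟨f, ⟨f', h1⟩, ?_, ?_⟩, rfl⟩
  · refine EndF.ext ?_
    rw [EndF.mul_s, EndF.one_s]
    exact h3
  · refine EndF.ext ?_
    rw [EndF.mul_s, EndF.one_s]
    exact h2

end Lin

theorem pow_dvd_subst {R : Type*} [CommRing R] {s f : R⟦X⟧} {a N : ℕ} (hs0 : constantCoeff s = 0)
    (hs : (X : R⟦X⟧) ^ a ∣ s) (hf : (X : R⟦X⟧) ^ N ∣ f) :
    (X : R⟦X⟧) ^ (a * N) ∣ PowerSeries.subst s f := by
  obtain ⟨g, rfl⟩ := hf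
  rw [PowerSeries.subst_mul (hs_zero hs0), ← PowerSeries.coe_substAlgHom (hs_zero hs0), map_pow,
    PowerSeries.coe_substAlgHom, PowerSeries.subst_X (hs_zero hs0), pow_mul]
  exact Dvd.dvd.mul_right (pow_dvd_pow_of_dvd hs N) _

section Field

variable {k : Type*} [Field k] (p : ℕ) [Fact p.Prime] [CharP k p] {Γ : FormalGroup k} [Γ.IsComm]
  {n : ℕ}

/-- `[p] = V (x ^ (p ^ n))` -/
theorem exists_V (hΓ : HasHeight p n Γ) : ∃ V V' : k⟦X⟧,
    constantCoeff V = 0 ∧ IsHom Γ (Γ.map ((frobenius k p) ^ n)) V' ∧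
      mulSer Γ p = PowerSeries.subst (X ^ p ^ n : k⟦X⟧) V ∧
      PowerSeries.subst V V' = (X : k⟦X⟧) := by
  have hp : p.Prime := Fact.out
  have hpm : IsHom Γ Γ (mulSer Γ p) := by
    have h := (p : EndF Γ).hom
    rwa [EndF.natCast_s] at h
  obtain ⟨V, hV0, hV, e⟩ := hom_expand_pow p hpm n hΓ.1
  have hV1 : coeff 1 V ≠ 0 := by
    have h1 := hΓ.2.ne_zero
    rw [e, PowerSeries.coeff_subst_X_pow (pow_ne_zero _ hp.ne_zero), if_pos dvd_rfl,
      Nat.div_self (pow_pos hp.pos n)] at h1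
    exact h1
  obtain ⟨V', h1, h2, h3⟩ := hV.inv (isUnit_iff_ne_zero.2 hV1)
  exact ⟨V, V', hV0, h1, e, h2⟩

theorem mulSer_dvd (hΓ : HasHeight p n Γ) : (X : k⟦X⟧) ^ p ^ n ∣ mulSer Γ p :=
  PowerSeries.X_pow_dvd_iff.2 hΓ.1

theorem mulSer_order (hΓ : HasHeight p n Γ) : (mulSer Γ p).order = (p ^ n : ℕ) := by
  rw [PowerSeries.order_eq_nat]
  exact ⟨hΓ.2.ne_zero, hΓ.1⟩

/-- one step of the division -/
theorem dvd_step (hΓ : HasHeight p n Γ) (θ : EndF Γ) (N : ℕ)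
    (h : (X : k⟦X⟧) ^ (p ^ n * (N + 1)) ∣ θ.s) :
    ∃ η : EndF Γ, θ = (p : EndF Γ) * η ∧ (X : k⟦X⟧) ^ (N + 1) ∣ η.s := by
  have hp : p.Prime := Fact.out
  have hpn : p ^ n ≠ 0 := pow_ne_zero _ hp.ne_zero
  obtain ⟨V, V', hV0, hV', e, hVV⟩ := exists_V p hΓ
  have hθ := PowerSeries.X_pow_dvd_iff.1 h
  obtain ⟨θ₁, h0, h1, h2⟩ := hom_expand_pow p θ.hom n fun i hi => hθ i (by
    calc i < p ^ n := hi
      _ ≤ p ^ n * (N + 1) := Nat.le_mul_of_pos_right _ (Nat.succ_pos N))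
  have hη : IsHom Γ Γ (PowerSeries.subst V' θ₁ : k⟦X⟧) := hV'.comp h1
  refine ⟨⟨_, hη⟩, ?_, ?_⟩
  · rw [(Nat.cast_commute p _).eq]
    refine EndF.ext ?_
    rw [EndF.mul_s, EndF.natCast_s, subst_subst' hV'.1 (cc_mulSer Γ p)]
    have e1 : PowerSeries.subst (mulSer Γ p) V' = (X ^ p ^ n : k⟦X⟧) := by
      rw [e, ← subst_subst' hV0 (hs_X_pow hpn), hVV, PowerSeries.subst_X (hs_zero (hs_X_pow hpn))]
    rw [e1]
    exact h2
  · have h3 : (X : k⟦X⟧) ^ (N + 1) ∣ θ₁ := by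
      rw [PowerSeries.X_pow_dvd_iff]
      intro i hi
      have h4 := hθ (p ^ n * i) (Nat.mul_lt_mul_of_pos_left hi (Nat.pos_of_ne_zero hpn))
      rw [h2, PowerSeries.coeff_subst_X_pow hpn, if_pos (dvd_mul_right _ _),
        Nat.mul_div_cancel_left _ (Nat.pos_of_ne_zero hpn)] at h4
      exact h4
    have h5 := pow_dvd_subst (a := 1) hV'.1 (by rw [pow_one]; exact PowerSeries.X_dvd_iff.2 hV'.1) h3
    rwa [one_mul] at h5

/-- divisibility by `p ^ s` -/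
theorem dvd_of_order (hΓ : HasHeight p n Γ) (θ : EndF Γ) (s : ℕ)
    (h : (X : k⟦X⟧) ^ p ^ (n * s) ∣ θ.s) : ∃ η : EndF Γ, θ = (p : EndF Γ) ^ s * η := by
  have hp : p.Prime := Fact.out
  induction s generalizing θ with
  | zero => exact ⟨θ, by rw [pow_zero, one_mul]⟩
  | succ s ih =>
    obtain ⟨N, hN⟩ : ∃ N, p ^ (n * s) = N + 1 :=
      ⟨p ^ (n * s) - 1, by have := pow_pos hp.pos (n * s); omega⟩
    obtain ⟨η, h1, h2⟩ := dvd_step p hΓ θ N (by
      rw [← hN, ← pow_add]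
      have e : n + n * s = n * (s + 1) := by ring
      rw [e]
      exact h)
    rw [← hN] at h2
    obtain ⟨ζ, h3⟩ := ih η h2
    exact ⟨ζ, by rw [h1, h3, ← mul_assoc, ← pow_succ']⟩

theorem ppow_succ (η : EndF Γ) (s : ℕ) :
    ((p : EndF Γ) ^ (s + 1) * η).s =
      PowerSeries.subst (mulSer Γ p) ((p : EndF Γ) ^ s * η).s := by
  rw [pow_succ', mul_assoc, (Nat.cast_commute p ((p : EndF Γ) ^ s * η)).eq, EndF.mul_s,
    EndF.natCast_s]

theorem order_ppow (hΓ : HasHeight p n Γ) (η : EndF Γ) (s : ℕ) :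
    (X : k⟦X⟧) ^ p ^ (n * s) ∣ ((p : EndF Γ) ^ s * η).s := by
  induction s with
  | zero =>
    rw [mul_zero, pow_zero, pow_zero, pow_one, one_mul]
    exact PowerSeries.X_dvd_iff.2 η.cc
  | succ s ih =>
    rw [ppow_succ, mul_add, mul_one, add_comm, pow_add]
    exact pow_dvd_subst (cc_mulSer Γ p) (mulSer_dvd p hΓ) ih

theorem order_ppow_eq (hΓ : HasHeight p n Γ) (η : EndF Γ) (s b : ℕ)
    (h : η.s.order = (p ^ b : ℕ)) :
    ((p : EndF Γ) ^ s * η).s.order = (p ^ (n * s + b) : ℕ) := by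
  induction s with
  | zero => rw [mul_zero, pow_zero, one_mul, zero_add]; exact h
  | succ s ih =>
    rw [ppow_succ]
    refine (H85.CH.order_comp (cc_mulSer Γ p) ih (mulSer_order p hΓ)).1.trans ?_
    rw [← pow_add]
    congr 2
    ring

theorem lin_pow (hΓ : HasHeight p n Γ) (θ : EndF Γ) :
    (coeff 1 θ.s) ^ p ^ n = coeff 1 θ.s := by
  have hp : p.Prime := Fact.out
  have hpn : p ^ n ≠ 0 := pow_ne_zero _ hp.ne_zero
  by_cases h0 : coeff 1 θ.s = 0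
  · rw [h0, zero_pow hpn]
  have ho : θ.s.order = (1 : ℕ) := by
    rw [PowerSeries.order_eq_nat]
    refine ⟨h0, fun i hi => ?_⟩
    have : i = 0 := by omega
    rw [this, PowerSeries.coeff_zero_eq_constantCoeff_apply]
    exact θ.cc
  have h1 : (PowerSeries.subst (mulSer Γ p) θ.s : k⟦X⟧) = PowerSeries.subst θ.s (mulSer Γ p) := by
    have h2 := congrArg EndF.s (Nat.cast_commute p θ).eq
    rw [EndF.mul_s, EndF.mul_s, EndF.natCast_s] at h2
    exact h2.symm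
  have h2 := (H85.CH.order_comp (cc_mulSer Γ p) ho (mulSer_order p hΓ)).2
  have h3 := (H85.CH.order_comp θ.cc (mulSer_order p hΓ) ho).2
  rw [one_mul, pow_one, h1] at h2
  rw [mul_one] at h3
  rw [h3, mul_comm] at h2
  exact mul_right_cancel₀ hΓ.2.ne_zero h2

end Field

end Pool.Agent.H25.CG
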